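import Pool.Agent.Q49.WU.Main
import Pool.Agent.Q193.LT.Crit

/-!
# Cohomology with compact supports in one weight

The objects `H N n X`, for example the graded objects `Gr^W_{w+2N} H^n_c(X)` of the weight filtration in a
category of motives, for a fixed integer `w`. The properties all `H N n X` are in the Serre class
`S` have the closure properties `WUni`.
-/

set_option autoImplicit false

open CategoryTheory CategoryTheory.Limits AlgebraicGeometry Pool.Agent.Y116.UV Pool.Agent.Z125.UN
  Pool.Agent.Q193.LT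

universe v u

namespace Pool.Agent.Q49.WU

/-- The weight graded pieces of the cohomology with compact supports: `H N n X` is
`Gr^W_{w+2N} H^n_c(X)` for a fixed integer `w`, with values in the category `A`, and the Tate twists of the
objects of `A`. -/
structure WeightData (R : Type) [CommRing R] (A : Type u) [Category.{v} A] where
  /-- `Gr^W_{w+2N} H^n_c(X)` -/
  H : ℤ → ℤ → Sch R → A
  /-- the Tate twist `M(a)` -/
  tw : ℤ → A ⥤ A

/-- The theory for one weight. -/
def WeightData.at {R : Type} [CommRing R] {A : Type u} [Category.{v} A] (D : WeightData R A)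
    (N : ℤ) : CompactData R A where
  H := D.H N
  tw := D.tw

variable {R : Type} [CommRing R] {A : Type u} [Category.{v} A] [Abelian A]

/-- The standard properties, for all `N`.

* `exact`: the long exact sequences
  `⋯ → H^n_c(U) → H^n_c(X) → H^n_c(Z) → H^{n+1}_c(U) → ⋯` in weight `w + 2N`, for a closed
  subscheme `Z` of `X` with the complement `U`;
* `bundle`: for the affine bundle `Spec B[w_1, …, w_m] / (∑ f_l w_l - 1) → U` with fibre `𝔸^{m-1}`,
  where `U` is the complement of `f = 0` in `Spec B`, the cohomology of the total space is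
  `H^{n-2(m-1)}_c(U)(-(m-1))`, and so its part of weight `w + 2N` is the twist of the part of
  weight `w + 2(N - (m - 1))`;
* `torus`: `H^n_c(X × 𝔾_m) = H^{n-2}_c(X)(-1) ⊕ H^{n-1}_c(X)` for affine `X`, in weight `w + 2N`. -/
structure IsWeight (D : WeightData R A) : Prop where
  twAdditive : ∀ a, (D.tw a).Additive
  twZero : Nonempty (D.tw 0 ≅ 𝟭 A)
  twAdd : ∀ a b, Nonempty (D.tw a ⋙ D.tw b ≅ D.tw (a + b))
  iso : ∀ (N : ℤ) {X Y : Sch R}, FT True X → Nonempty (X ≅ Y) →
    ∀ n, Nonempty (D.H N n X ≅ D.H N n Y)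
  exact : ∀ (N : ℤ) {Z X U : Sch R} (i : Z ⟶ X) (j : U ⟶ X), FT True X → IsTriple i j →
    ∃ (a : ∀ n, D.H N n U ⟶ D.H N n X) (b : ∀ n, D.H N n X ⟶ D.H N n Z)
      (d : ∀ n, D.H N n Z ⟶ D.H N (n + 1) U) (hab : ∀ n, a n ≫ b n = 0)
      (hbd : ∀ n, b n ≫ d n = 0) (hda : ∀ n, d n ≫ a (n + 1) = 0),
      (∀ n, (ShortComplex.mk (a n) (b n) (hab n)).Exact) ∧
      (∀ n, (ShortComplex.mk (b n) (d n) (hbd n)).Exact) ∧
      (∀ n, (ShortComplex.mk (d n) (a (n + 1)) (hda n)).Exact)
  bundle : ∀ (N : ℤ) (B : Type) [CommRing B] [Algebra R B] [Algebra.FiniteType R B] (m : ℕ)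
    (f : Fin m → B) (U : Sch R) (j : U ⟶ aff R B), IsOpenImmersion j.left →
    Set.range j.left = {x : PrimeSpectrum B | ∃ l, f l ∉ x.asIdeal} →
    ∀ n, Nonempty (D.H N n (aff R (Jou f)) ≅
      (D.tw (1 - m)).obj (D.H (N + (1 - m)) (n + 2 * (1 - m)) U))
  torus : ∀ (N : ℤ) (B : Type) [CommRing B] [Algebra R B] [Algebra.FiniteType R B], ∀ n,
    Nonempty (D.H N n (aff R (LaurentPolynomial B)) ≅
      (D.tw (-1)).obj (D.H (N - 1) (n - 2) (aff R B)) ⊞ D.H N (n - 1) (aff R B))

/-- The objects `H N n X` are in `S` for all `n`. -/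
def InAt (D : WeightData R A) (S : A → Prop) (N : ℤ) (X : Sch R) : Prop := ∀ n, S (D.H N n X)

variable {D : WeightData R A} {S : A → Prop}

/-- A Serre class that is stable under the Tate twists. -/
def TwSerre (D : WeightData R A) (S : A → Prop) : Prop := IsTateSerre (D.at 0) S

lemma TwSerre.untwist (hS : TwSerre D S) (hD : IsWeight D) (a : ℤ) (M : A)
    (h : S ((D.tw a).obj M)) : S M := by
  obtain ⟨e0⟩ := hD.twZero
  obtain ⟨e⟩ := hD.twAdd a (-a)
  have h1 := hS.toIsSerre.iso (e.app M) (hS.twist (-a) _ h)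
  rw [add_neg_cancel] at h1
  exact hS.toIsSerre.iso (e0.app M) h1

/-- Closure properties. -/
theorem wuni_weight (hD : IsWeight D) (hS : TwSerre D S)
    (h1 : ∀ N, InAt D S N (aff R R)) : WUni True (InAt D S) := by
  have hbun : ∀ (N : ℤ) (B : Type) [CommRing B] [Algebra R B] [Algebra.FiniteType R B] (m : ℕ)
      (f : Fin m → B) (U : Sch R) (j : U ⟶ aff R B), IsOpenImmersion j.left →
      Set.range j.left = {x : PrimeSpectrum B | ∃ l, f l ∉ x.asIdeal} →
      (InAt D S (N + (m - 1)) (aff R (Jou f)) ↔ InAt D S N U) := by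
    intro N B _ _ _ m f U j hj hr
    have h0 : N + ((m : ℤ) - 1) + (1 - m) = N := by ring
    constructor
    · intro h n
      obtain ⟨e⟩ := hD.bundle (N + (m - 1)) B m f U j hj hr (n - 2 * (1 - m))
      have h2 := hS.untwist hD _ _ (hS.toIsSerre.iso e (h _))
      rwa [sub_add_cancel, h0] at h2
    · intro h n
      obtain ⟨e⟩ := hD.bundle (N + (m - 1)) B m f U j hj hr n
      rw [h0] at e
      exact hS.toIsSerre.iso e.symm (hS.twist _ _ (h _))
  exact
  { iso := fun N X Y hX e h n => by
      obtain ⟨e'⟩ := hD.iso N hX e n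
      exact hS.toIsSerre.iso e' (h n)
    total := fun N Z X U i j hX ht hZ hU n => by
      obtain ⟨a, b, d, hab, hbd, hda, e1, e2, e3⟩ := hD.exact N i j hX ht
      exact hS.mid _ _ _ (e1 n) (hU n) (hZ n)
    opened := fun N Z X U i j hX ht hZ hX' n => by
      obtain ⟨a, b, d, hab, hbd, hda, e1, e2, e3⟩ := hD.exact N i j hX ht
      have h := hS.mid _ _ _ (e3 (n - 1)) (hZ (n - 1)) (hX' (n - 1 + 1))
      rwa [sub_add_cancel] at h
    closed := fun N Z X U i j hX ht hX' hU n => by
      obtain ⟨a, b, d, hab, hbd, hda, e1, e2, e3⟩ := hD.exact N i j hX ht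
      exact hS.mid _ _ _ (e2 n) (hX' n) (hU (n + 1))
    space := fun N n => by
      have h2 := (hbun (N - n) R (n + 1) (f1 R n) (aff R R) (𝟙 _) inferInstance
        (range_id n)).mpr (h1 _)
      have h0 : N - (n : ℤ) + (((n + 1 : ℕ) : ℤ) - 1) = N := by push_cast; ring
      rw [h0] at h2
      intro q
      obtain ⟨e⟩ := hD.iso N (ft_aff True) ⟨(affIso (jouOne R n)).symm⟩ q
      exact hS.toIsSerre.iso e (h2 q)
    jouanolou := fun N B _ _ _ m f U j hj hr => hbun N B m f U j hj hr
    torus := fun N B _ _ _ h n => by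
      obtain ⟨e⟩ := hD.torus N B (n + 1)
      have h2 := hS.toIsSerre.iso e (h (n + 1))
      have h3 := hS.toIsSerre.of_epi
        (biprod.snd : (D.tw (-1)).obj (D.H (N - 1) (n + 1 - 2) (aff R B)) ⊞
          D.H N (n + 1 - 1) (aff R B) ⟶ D.H N (n + 1 - 1) (aff R B)) h2
      rwa [add_sub_cancel_right] at h3 }

/-- Smooth projective schemes generate in each weight: a Serre class that contains the parts of weight
`w + 2N` of the cohomology of all smooth projective schemes contains those of the cohomology with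
compact supports of all separated schemes of finite type. (The graded object `Gr^W_w H^n_c(X)` is a
subquotient of a sum of `H^w(Y)` for smooth projective `Y`.) -/
def WGenerated {k : Type} [Field k] {A : Type u} [Category.{v} A] [Abelian A]
    (D : WeightData k A) : Prop :=
  ∀ (N : ℤ) (S : A → Prop), TwSerre D S → (∀ Y : Sch k, SmoothProj Y → InAt D S N Y) →
    ∀ X : Sch k, FT True X → InAt D S N X

section

variable {k : Type} [Field k] {A : Type u} [Category.{v} A] [Abelian A]
  {D : WeightData k A} {S : A → Prop} (hD : IsWeight D) (hg : WGenerated D) (hS : TwSerre D S)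
  (h1 : ∀ N, InAt D S N (aff k k))

include hD hg hS h1

/-- Smooth projective schemes and trilinear forms, weight by weight. -/
theorem sp_weight_iff (N : ℤ) : (∀ Y : Sch k, SmoothProj Y → InAt D S N Y) ↔
    ∀ (a b c : ℕ) (T : Fin a → Fin b → Fin c → k), InAt D S (N + (a - 1)) (hypS T) := by
  rw [← all_iff (wuni_weight hD hS h1)]
  exact ⟨fun h => hg N S hS h, fun h Y hY => h Y hY.ft⟩

/-- Over a prime field: smooth projective schemes and hypergraphs, weight by weight. -/
theorem sp_weight_graph (hF : Frac k) (N : ℤ) :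
    (∀ Y : Sch k, SmoothProj Y → InAt D S N Y) ↔
      ∀ (a b c : ℕ) (H : Finset (Fin a × Fin b × Fin c)),
        InAt D S (N + (a - 1)) (tripS k H) := by
  rw [← graph_iff hF (wuni_weight hD hS h1)]
  exact ⟨fun h => hg N S hS h, fun h Y hY => h Y hY.ft⟩

end

end Pool.Agent.Q49.WU
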