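import Pool.Agent.Q49.WU.Coh

/-!
# Properties of all direct factors, weight by weight
-/

set_option autoImplicit false

open CategoryTheory CategoryTheory.Limits AlgebraicGeometry Pool.Agent.Y116.UV Pool.Agent.Z125.UN
  Pool.Agent.Q193.LT
open scoped ZeroObject

universe v u v' u' w

namespace Pool.Agent.Q49.WU

variable {R : Type} [CommRing R] {A : Type u} [Category.{v} A] [Abelian A]

/-- the theory `0` with the same twists -/
noncomputable def zeroData (D : WeightData R A) : CompactData R A where
  H _ _ := 0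
  tw := D.tw

variable {D : WeightData R A}

lemma zero_compact (hD : IsWeight D) : IsCompact (zeroData D) where
  twAdditive := hD.twAdditive
  twZero := hD.twZero
  twAdd := hD.twAdd
  iso _ _ _ := ⟨Iso.refl _⟩
  exact _ _ _ _ := by
    refine ⟨fun _ => 0, fun _ => 0, fun _ => 0, fun _ => comp_zero, fun _ => comp_zero,
      fun _ => comp_zero, fun _ => ?_, fun _ => ?_, fun _ => ?_⟩ <;>
    exact ShortComplex.exact_of_isZero_X₂ _ (isZero_zero A)
  bundle B _ _ _ m _ _ _ _ _ n := by
    have := hD.twAdditive (1 - m)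
    exact ⟨(isZero_zero A).iso ((D.tw (1 - m)).map_isZero (isZero_zero A))⟩
  torus B _ _ _ n := by
    have := hD.twAdditive (-1)
    have h1 : IsZero ((D.tw (-1)).obj (0 : A)) := (D.tw (-1)).map_isZero (isZero_zero A)
    refine ⟨(isZero_zero A).iso ?_⟩
    change IsZero ((D.tw (-1)).obj (0 : A) ⊞ (0 : A))
    rw [IsZero.iff_id_eq_zero]
    apply biprod.hom_ext
    · exact h1.eq_of_tgt _ _
    · exact (isZero_zero A).eq_of_tgt _ _

lemma twSerre_of_zero {S : A → Prop} (h : IsTateSerre (zeroData D) S) : TwSerre D S :=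
  ⟨h.toIsSerre, h.twist⟩

/-- Every direct factor of every Tate twist of `M` has the property `Q`. -/
def TwFacts (D : WeightData R A) (Q : A → Prop) (M : A) : Prop :=
  ∀ (a : ℤ) (N : A) (i : N ⟶ (D.tw a).obj M) (r : (D.tw a).obj M ⟶ N), i ≫ r = 𝟙 N → Q N

/-- If `Q` is invariant under isomorphisms, true for zero objects and direct sums, the objects all of
whose direct factors (and those of the Tate twists) have the property `Q` form a Serre class. -/
theorem twFacts_serre (hD : IsWeight D) {Q : A → Prop}
    (hss : ∀ {X Y : A} (f : X ⟶ Y), Mono f → ∃ r : Y ⟶ X, f ≫ r = 𝟙 X)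
    (h0 : ∀ X, IsZero X → Q X) (hi : ∀ {X Y : A}, (X ≅ Y) → Q X → Q Y)
    (hs : ∀ {X Y : A}, Q X → Q Y → Q (X ⊞ Y)) : TwSerre D (TwFacts D Q) :=
  twSerre_of_zero (facts_serre (zero_compact hD) hss h0 hi hs)

/-- What is used about a category of motives over the field `k` with the weight graded pieces of the
cohomology with compact supports: the standard properties (see `IsWeight`), smooth projective
varieties generate in each weight (see `WGenerated`), and every monomorphism splits (Deligne, André). -/
structure IsWMotives {k : Type} [Field k] (D : WeightData k A) : Prop where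
  weight : IsWeight D
  generated : WGenerated D
  semisimple : ∀ {X Y : A} (f : X ⟶ Y), Mono f → ∃ r : Y ⟶ X, f ≫ r = 𝟙 X

/-- Deligne's conjecture for all direct factors of all twists defines a Serre class. -/
theorem deligne_twSerre {E : Type} [Field E] {EC : Type} [CommRing EC] [Algebra E EC]
    (hD : IsWeight D) (hss : ∀ {X Y : A} (f : X ⟶ Y), Mono f → ∃ r : Y ⟶ X, f ≫ r = 𝟙 X)
    {C : CritData A EC} (hC : IsCrit E C) : TwSerre D (TwFacts D (Deligne E C)) :=
  twSerre_of_zero (deligne_serre (zero_compact hD) hss hC)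

/-- All morphisms from the unit object to the Tate twists of `M` after the realization `F` come from
morphisms before the realization. -/
def TwFull {B : Type u'} [Category.{v'} B] (D : WeightData R A) (one : A) (F : A ⥤ B) (M : A) :
    Prop :=
  ∀ (a : ℤ) (g : F.obj one ⟶ F.obj ((D.tw a).obj M)), ∃ f : one ⟶ (D.tw a).obj M, F.map f = g

theorem twFull_serre {B : Type u'} [Category.{v'} B] [Preadditive B] {one : A} {F : A ⥤ B}
    (hD : IsWeight D) [F.Additive]
    (hss : ∀ {X Y : A} (f : X ⟶ Y), Mono f → ∃ r : Y ⟶ X, f ≫ r = 𝟙 X) :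
    TwSerre D (TwFull D one F) :=
  twSerre_of_zero (fullAt_serre (zero_compact hD) hss)

/-- The realizations of all Tate twists of `M` are semisimple modules over the ring `Λ` (the group
algebra of a Galois group). -/
def TwSemi {Λ : Type u'} [Ring Λ] (D : WeightData R A) (F : A ⥤ ModuleCat.{w} Λ) (M : A) : Prop :=
  ∀ a : ℤ, IsSemisimpleModule Λ (F.obj ((D.tw a).obj M))

theorem twSemi_serre {Λ : Type u'} [Ring Λ] {F : A ⥤ ModuleCat.{w} Λ} (hD : IsWeight D)
    [F.Additive] (hss : ∀ {X Y : A} (f : X ⟶ Y), Mono f → ∃ r : Y ⟶ X, f ≫ r = 𝟙 X) :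
    TwSerre D (TwSemi D F) :=
  twSerre_of_zero (semiAt_serre (zero_compact hD) hss)

end Pool.Agent.Q49.WU
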