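import Pool.Agent.Q49.WU.Sums
import Pool.Agent.Q137.UO.SaTa

/-!
# Properties inherited by direct factors, in one weight
-/

set_option autoImplicit false

open CategoryTheory CategoryTheory.Limits AlgebraicGeometry Pool.Agent.Y116.UV Pool.Agent.Z125.UN
  Pool.Agent.Q193.LT

universe v u

namespace Pool.Agent.Q49.WU

attribute [local instance] Abelian.hasFiniteBiproducts

section

variable {A : Type u} [Category.{v} A]

/-- The property `P` is inherited by direct factors. -/
def Inherits (P : A → Prop) : Prop :=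
  ∀ {X Y : A} (i : X ⟶ Y) (r : Y ⟶ X), i ≫ r = 𝟙 X → P Y → P X

/-- All direct factors of `N` have the property `P`. -/
def AllFactors (P : A → Prop) (N : A) : Prop :=
  ∀ (R : A) (i : R ⟶ N) (r : N ⟶ R), i ≫ r = 𝟙 R → P R

lemma allFactors_inherits (P : A → Prop) : Inherits (AllFactors P) := by
  intro X Y i r hir h R j s hjs
  refine h R (j ≫ i) (r ≫ s) ?_
  rw [Category.assoc, ← Category.assoc i, hir, Category.id_comp, hjs]

lemma Inherits.map {P : A → Prop} (h : Inherits P) (w : A ⥤ A) :
    Inherits fun N => P (w.obj N) := by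
  intro X Y i r hir hY
  exact h (w.map i) (w.map r) (by rw [← w.map_comp, hir, w.map_id]) hY

end

variable {k : Type} [Field k] {A : Type u} [Category.{v} A] [Abelian A]

/-- `N` is a direct factor of a finite direct sum of Tate twists of objects with the property `G`. -/
def FactorAt (D : WeightData k A) (G : A → Prop) (N : A) : Prop :=
  ∃ (J : Type) (_ : Finite J) (M : J → A) (a : J → ℤ)
    (i : N ⟶ ⨁ fun j => (D.tw (a j)).obj (M j))
    (r : (⨁ fun j => (D.tw (a j)).obj (M j)) ⟶ N), (∀ j, G (M j)) ∧ i ≫ r = 𝟙 N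

/-- For every finite direct sum of Tate twists of the objects in question there is a smooth projective
scheme `X` such that the direct sum has the property `P` if all `D.H 0 n X` have it. -/
def SingleAt (D : WeightData k A) (P : A → Prop) : Prop :=
  ∀ (J : Type) [Finite J] (M : J → A) (a : J → ℤ), (∀ j, OfProjAt D (M j)) →
    ∃ X : Sch k, SmoothProj X ∧
      ((∀ n, P (D.H 0 n X)) → P (⨁ fun j => (D.tw (a j)).obj (M j)))

variable {D : WeightData k A} {P : A → Prop}

lemma factorAt_iff (hP : Inherits P) (G : A → Prop) :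
    (∀ N, FactorAt D G N → P N) ↔ SumsAt D G P := by
  constructor
  · intro h J _ M a hM
    exact h _ ⟨J, inferInstance, M, a, 𝟙 _, 𝟙 _, hM, Category.id_comp _⟩
  · rintro h N ⟨J, _, M, a, i, r, hG, hir⟩
    exact hP i r hir (h J M a hG)

lemma single_iff (h : IsWMotives D) (hP : Inherits P) (hs : SingleAt D P) :
    (∀ Y : Sch k, SmoothProj Y → ∀ n, P (D.H 0 n Y)) ↔ SumsAt D (OfProjAt D) P := by
  constructor
  · intro h1 J _ M a hM
    obtain ⟨X, hX, h2⟩ := hs J M a hM
    exact h2 (h1 X hX)
  · intro h1 Y hY n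
    obtain ⟨e⟩ := h.weight.twZero
    refine hP (biproduct.lift fun _ : Unit => e.inv.app (D.H 0 n Y))
      (biproduct.desc fun _ : Unit => e.hom.app (D.H 0 n Y)) ?_
      (h1 Unit (fun _ => D.H 0 n Y) (fun _ => 0) fun _ => Or.inr ⟨Y, n, hY, rfl⟩)
    rw [biproduct.lift_desc, Fintype.sum_unique]
    exact e.inv_hom_id_app _

/-- Smooth projective schemes and trilinear forms. -/
theorem single_forms (h : IsWMotives D) (hP : Inherits P) (hs : SingleAt D P) :
    (∀ Y : Sch k, SmoothProj Y → ∀ n, P (D.H 0 n Y)) ↔ SumsAt D (OfFormsAt D) P :=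
  (single_iff h hP hs).trans (sumsAt_iff h hP)

/-- Smooth projective schemes and hypergraphs over a prime field. -/
theorem single_graphs (h : IsWMotives D) (hP : Inherits P) (hs : SingleAt D P) (hF : Frac k) :
    (∀ Y : Sch k, SmoothProj Y → ∀ n, P (D.H 0 n Y)) ↔ SumsAt D (OfGraphsAt D) P :=
  (single_iff h hP hs).trans (sumsAt_graph h hP hF)

end Pool.Agent.Q49.WU
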