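import Pool.Agent.Y116.UV.Main
import Pool.Agent.Q193.LT.Prime

/-!
# Families of properties of schemes which are shifted by affine bundles

`P N X` for `N ∈ ℤ` (for example: a property of the part of weight `w + 2N` of the cohomology with
compact supports of `X`). Each `P N` is closed under closed-open decompositions, and an affine bundle with
fibre of dimension `m - 1` shifts `N` by `m - 1`. Then `P N` is true for all schemes of finite type if and
only if `P (N + a - 1)` is true for the hypersurfaces `T(x_1, …, x_a, y, z) = 1`.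
-/

set_option autoImplicit false

open CategoryTheory AlgebraicGeometry TopologicalSpace MvPolynomial Pool.Agent.Y116.UV
  Pool.Agent.Q193.LT

namespace Pool.Agent.Q49.WU

/-- The properties `P N` of schemes of finite type over `R` are closed under closed-open decompositions,
they are true for the affine spaces, they descend from `X × 𝔾_m` to `X` for affine schemes `X`, and the
affine bundles of Jouanolou with fibre of dimension `m - 1` shift the index by `m - 1`. -/
structure WUni {R : Type} [CommRing R] (sep : Prop) (P : ℤ → Sch R → Prop) : Prop where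
  iso : ∀ (N : ℤ) {X Y : Sch R}, FT sep X → Nonempty (X ≅ Y) → P N X → P N Y
  total : ∀ (N : ℤ) {Z X U : Sch R} (i : Z ⟶ X) (j : U ⟶ X), FT sep X → IsTriple i j →
    P N Z → P N U → P N X
  opened : ∀ (N : ℤ) {Z X U : Sch R} (i : Z ⟶ X) (j : U ⟶ X), FT sep X → IsTriple i j →
    P N Z → P N X → P N U
  closed : ∀ (N : ℤ) {Z X U : Sch R} (i : Z ⟶ X) (j : U ⟶ X), FT sep X → IsTriple i j →
    P N X → P N U → P N Z
  space : ∀ (N : ℤ) (n : ℕ), P N (aff R (MvPolynomial (Fin n) R))
  jouanolou : ∀ (N : ℤ) (A : Type) [CommRing A] [Algebra R A] [Algebra.FiniteType R A] (m : ℕ)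
    (f : Fin m → A) (U : Sch R) (j : U ⟶ aff R A), IsOpenImmersion j.left →
    Set.range j.left = {x : PrimeSpectrum A | ∃ l, f l ∉ x.asIdeal} →
    (P (N + (m - 1)) (aff R (Jou f)) ↔ P N U)
  torus : ∀ (N : ℤ) (A : Type) [CommRing A] [Algebra R A] [Algebra.FiniteType R A],
    P N (aff R (LaurentPolynomial A)) → P N (aff R A)

variable {R : Type} [CommRing R] {sep : Prop} {P : ℤ → Sch R → Prop} {N : ℤ}

lemma iso_alg (hP : WUni sep P) {A B : Type} [CommRing A] [CommRing B] [Algebra R A] [Algebra R B]
    [Algebra.FiniteType R A] (e : A ≃ₐ[R] B) (h : P N (aff R A)) : P N (aff R B) :=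
  hP.iso N (ft_aff sep) ⟨(affIso e).symm⟩ h

lemma jou_triple {A : Type} [CommRing A] [Algebra R A] {m : ℕ} (f : Fin m → A) :
    IsTriple (affMap (Ideal.Quotient.mkₐ R (Ideal.span (Set.range f))))
      (opnMap (aff R A) (neOpen R f)) := by
  refine ⟨closed_affMap _ (Ideal.Quotient.mkₐ_surjective R _), inferInstance, ?_⟩
  rw [range_affMap _ (Ideal.Quotient.mkₐ_surjective R _), range_opnMap]
  ext x
  change (∀ a, Ideal.Quotient.mk (Ideal.span (Set.range f)) a = 0 → a ∈ x.asIdeal) ↔
    ¬ ∃ l, f l ∉ x.asIdeal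
  push Not
  constructor
  · intro h l
    exact h (f l) (Ideal.Quotient.eq_zero_iff_mem.mpr (Ideal.subset_span ⟨l, rfl⟩))
  · intro h a ha
    rw [Ideal.Quotient.eq_zero_iff_mem] at ha
    refine (Ideal.span_le.mpr ?_ : Ideal.span (Set.range f) ≤ x.asIdeal) ha
    rintro _ ⟨l, rfl⟩
    exact h l

/-- From the affine bundle over the complement of `f = 0` to the closed subscheme `f = 0`. -/
lemma of_jou (hP : WUni sep P) {A : Type} [CommRing A] [Algebra R A] [Algebra.FiniteType R A]
    {m : ℕ} (f : Fin m → A) (hA : P N (aff R A)) (hJ : P (N + (m - 1)) (aff R (Jou f))) :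
    P N (aff R (A ⧸ Ideal.span (Set.range f))) :=
  hP.closed N _ _ (ft_aff sep) (jou_triple f) hA
    ((hP.jouanolou N A m f (opn (aff R A) (neOpen R f)) (opnMap (aff R A) (neOpen R f))
      inferInstance (range_opnMap _ _)).mp hJ)

/-- From the closed subscheme `f = 0` to the affine bundle over its complement. -/
lemma to_jou (hP : WUni sep P) {A : Type} [CommRing A] [Algebra R A] [Algebra.FiniteType R A]
    {m : ℕ} (f : Fin m → A) (hA : P N (aff R A))
    (hZ : P N (aff R (A ⧸ Ideal.span (Set.range f)))) : P (N + (m - 1)) (aff R (Jou f)) :=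
  (hP.jouanolou N A m f (opn (aff R A) (neOpen R f)) (opnMap (aff R A) (neOpen R f))
      inferInstance (range_opnMap _ _)).mpr
    (hP.opened N _ _ (ft_aff sep) (jou_triple f) hZ hA)

section

variable {S : Set R} (hP : WUni sep P) (h0 : 0 ∈ S) (h1 : 1 ∈ S)
  (hH : ∀ (a b c : ℕ) (T : Fin a → Fin b → Fin c → R), (∀ i j k, T i j k ∈ S) →
    P (N + (a - 1)) (aff R (Hyp T)))

include hP hH

lemma hyp_fintype {a : ℕ} {β γ : Type} [Fintype β] [Fintype γ] (T : Fin a → β → γ → R)
    (hT : ∀ i j k, T i j k ∈ S) : P (N + (a - 1)) (aff R (Hyp T)) :=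
  iso_alg hP (hypRename (Equiv.refl (Fin a)) (Fintype.equivFin β).symm
    (Fintype.equivFin γ).symm T) (hH _ _ _ _ fun _ _ _ => hT _ _ _)

lemma of_bil {β γ κ : Type} [Fintype β] [Fintype γ] [Fintype κ] (f : κ → MvPolynomial (β ⊕ γ) R)
    (hf : ∀ k, f k ∈ bilIn S β γ) :
    P N (aff R (MvPolynomial (β ⊕ γ) R ⧸ Ideal.span (Set.range f))) := by
  let e := (Fintype.equivFin κ).symm
  have h1 : Set.range f = Set.range (f ∘ e) := by
    rw [Set.range_comp, e.range_eq_univ, Set.image_univ]
  rw [h1]
  choose T hTS hT using hf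
  refine of_jou hP (f ∘ e) ?_ ?_
  · exact iso_alg hP (renameEquiv R (Fintype.equivFin (β ⊕ γ)).symm) (hP.space _ _)
  · have h2 : f ∘ e = fun i => bil β γ (T (e i)) := by
      funext i
      exact (hT (e i)).symm
    rw [h2]
    exact iso_alg hP (hypEquiv fun i => T (e i)) (hyp_fintype hP hH _ fun _ _ _ => hTS _ _ _)

include h0 h1

lemma of_cone {A : Type} [CommRing A] [Algebra R A] [Algebra.FiniteType R A] {n D : ℕ} (hD : 1 ≤ D)
    (G : Finset (MvPolynomial (Fin n) R)) (φ : MvPolynomial (Fin n) R →ₐ[R] A)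
    (hd : ∀ g ∈ G, ∀ m ∈ g.support, m.degree ≤ D) (hs : Function.Surjective φ)
    (hK : RingHom.ker φ = Ideal.span (G : Set (MvPolynomial (Fin n) R)))
    (hc : ∀ g ∈ G, ∀ m, coeff m g ∈ S) : P N (aff R A) := by
  classical
  have hG : ∀ g ∈ G, φ g = 0 := by
    intro g hg
    have : g ∈ RingHom.ker φ := by
      rw [hK]
      exact Ideal.subset_span hg
    exact this
  have hA : P N (aff R (Cone hD G)) := of_bil hP hH (eqs hD G) (eqs_mem hD G h0 h1 hc)
  let f' : Option (Mon n D ⊕ (Mon n D × Fin n) ⊕ G) → UVRing R n D := fun k =>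
    k.elim (uu R (mo n D) * vv R (mo n D)) (eqs hD G)
  have h2 : P N (aff R (UVRing R n D ⧸ Ideal.span (Set.range f'))) := by
    apply of_bil hP hH f'
    rintro (_ | k)
    · exact single_mem h0 h1 _ _
    · exact eqs_mem hD G h0 h1 hc k
  have h3 : Ideal.span (Set.range f') =
      eqI hD G ⊔ Ideal.span {uu R (mo n D) * vv R (mo n D)} := by
    rw [eqI, ← Ideal.span_union]
    congr 1
    ext x
    constructor
    · rintro ⟨_ | k, rfl⟩
      · exact Or.inr rfl
      · exact Or.inl ⟨k, rfl⟩
    · rintro (⟨k, rfl⟩ | rfl)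
      · exact ⟨some k, rfl⟩
      · exact ⟨none, rfl⟩
  rw [h3] at h2
  have h4 : P N (aff R (Cone hD G ⧸ Ideal.span {cw hD G})) := by
    have e := (DoubleQuot.quotQuotEquivQuotSupₐ R (eqI hD G)
      (Ideal.span {uu R (mo n D) * vv R (mo n D)})).symm
    have h5 := iso_alg (B := Cone hD G ⧸ Ideal.map (Ideal.Quotient.mkₐ R (eqI hD G))
      (Ideal.span {uu R (mo n D) * vv R (mo n D)})) hP e h2
    have h6 : Ideal.map (Ideal.Quotient.mkₐ R (eqI hD G))
        (Ideal.span {uu R (mo n D) * vv R (mo n D)}) = Ideal.span {cw hD G} := by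
      rw [Ideal.map_span, Set.image_singleton]
      rfl
    rw [← h6]
    exact h5
  have h5 : P N (aff R (LCone hD G)) :=
    hP.opened N _ _ (ft_aff sep) (triple_away (cw hD G)) h4 hA
  have h6 : Algebra.FiniteType R (LCone hD G) :=
    Algebra.FiniteType.trans (S := Cone hD G) inferInstance inferInstance
  have h7 := ft_laurent (R := R) A
  exact hP.torus N A (hP.torus N _ (iso_alg hP (coneEquiv hD G φ hG hd hs hK) h5))

/-- The affine case. -/
theorem affine_case (hS : Presents S) (A : Type) [CommRing A] [Algebra R A]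
    [Algebra.FiniteType R A] : P N (aff R A) := by
  classical
  obtain ⟨n, φ, G, hs, hK, hc⟩ := hS A
  let D : ℕ := 1 + ∑ g ∈ G, ∑ m ∈ g.support, m.degree
  refine of_cone hP h0 h1 hH (D := D) (by omega) G φ ?_ hs hK hc
  intro g hg m hm
  have h1 : m.degree ≤ ∑ m ∈ g.support, m.degree :=
    Finset.single_le_sum (f := fun m : Fin n →₀ ℕ => m.degree) (fun _ _ => Nat.zero_le _) hm
  have h2 : ∑ m ∈ g.support, m.degree ≤ ∑ g ∈ G, ∑ m ∈ g.support, m.degree :=
    Finset.single_le_sum (f := fun g : MvPolynomial (Fin n) R => ∑ m ∈ g.support, m.degree)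
      (fun _ _ => Nat.zero_le _) hg
  omega

/-- If `P (N + (a - 1))` is true for the hypersurfaces `T(x_1, …, x_a, y, z) = 1` of the trilinear forms
`T` with coefficients in `S`, then `P N` is true for every (separated) scheme of finite type. -/
theorem universal (hS : Presents S) (X : Sch R) (hX : FT sep X) : P N X :=
  of_affine' (hP.iso N) (hP.total N) (fun A _ _ _ => affine_case hP h0 h1 hH hS A) X hX

end

/-- The converse: from all schemes of finite type to the trilinear forms. -/
theorem to_hyp (hP : WUni sep P) (h : ∀ X : Sch R, FT sep X → P N X) {a b c : ℕ}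
    (T : Fin a → Fin b → Fin c → R) : P (N + (a - 1)) (hypS T) := by
  have h2 := to_jou hP (N := N) (fun i => bil (Fin b) (Fin c) (T i)) (h _ (ft_aff sep))
    (h _ (ft_aff sep))
  exact iso_alg hP (hypEquiv T).symm h2

/-- All schemes of finite type, and all trilinear forms. -/
theorem all_iff [IsNoetherianRing R] (hP : WUni sep P) : (∀ X : Sch R, FT sep X → P N X) ↔
    ∀ (a b c : ℕ) (T : Fin a → Fin b → Fin c → R), P (N + (a - 1)) (hypS T) := by
  constructor
  · intro h a b c T
    exact to_hyp hP h T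
  · intro h X hX
    exact universal hP (S := Set.univ) trivial trivial (fun a b c T _ => h a b c T)
      presents_univ X hX

/-- Over a ring in which all elements are quotients of integers: all schemes of finite type, and the
tripartite hypergraphs. -/
theorem graph_iff [IsNoetherianRing R] (hR : Frac R) (hP : WUni sep P) :
    (∀ X : Sch R, FT sep X → P N X) ↔
      ∀ (a b c : ℕ) (H : Finset (Fin a × Fin b × Fin c)), P (N + (a - 1)) (tripS R H) := by
  classical
  constructor
  · intro h a b c H
    have h2 := to_hyp hP h (fun i j k => if (i, j, k) ∈ H then (1 : R) else 0)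
    unfold tripS Trip
    rw [← tri_ind]
    exact h2
  · intro h X hX
    refine universal hP (S := {0, 1}) (Or.inl rfl) (Or.inr rfl) ?_ (presents_frac hR) X hX
    intro a b c T hT
    let H : Finset (Fin a × Fin b × Fin c) := Finset.univ.filter fun h => T h.1 h.2.1 h.2.2 = 1
    have h1 : T = fun i j k => if (i, j, k) ∈ H then (1 : R) else 0 := by
      funext i j k
      have hm : (i, j, k) ∈ H ↔ T i j k = 1 := by
        rw [Finset.mem_filter]
        exact ⟨fun h => h.2, fun h => ⟨Finset.mem_univ _, h⟩⟩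
      by_cases h : T i j k = 1
      · rw [if_pos (hm.mpr h), h]
      · rw [if_neg fun h2 => h (hm.mp h2)]
        rcases hT i j k with h2 | h2
        · exact h2
        · exact absurd h2 h
    have h2 := h a b c H
    unfold tripS Trip at h2
    rw [← tri_ind, ← h1] at h2
    exact h2

end Pool.Agent.Q49.WU
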