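import Pool.Agent.Q49.WU.Facts
import Pool.Agent.Q193.LT.Origin

/-!
# Simple objects that occur in one weight of the cohomology of schemes
-/

set_option autoImplicit false

open CategoryTheory CategoryTheory.Limits AlgebraicGeometry Pool.Agent.Y116.UV Pool.Agent.Z125.UN
  Pool.Agent.Q193.LT

universe v u

namespace Pool.Agent.Q49.WU

variable {k : Type} [Field k] {A : Type u} [Category.{v} A] [Abelian A]

/-- The object `ρ` is a subquotient of `D.H N n X (N)`, for some `n`. -/
def OccursAt (D : WeightData k A) (ρ : A) (N : ℤ) (X : Sch k) : Prop :=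
  ∃ n, SubQ ρ ((D.tw N).obj (D.H N n X))

/-- The weight of `ρ` is the weight of the family: `ρ` is a subquotient of a twist `D.H N n X (a)` only
for `a = N`. -/
def HasWeight (D : WeightData k A) (ρ : A) : Prop :=
  ∀ (N n a : ℤ) (X : Sch k), SubQ ρ ((D.tw a).obj (D.H N n X)) → a = N

variable {D : WeightData k A} {ρ : A}

lemma not_occurs_twSerre (hD : IsWeight D) (ρ : A) [Simple ρ] :
    TwSerre D fun M => ¬ Occurs (zeroData D) ρ M :=
  twSerre_of_zero (not_occurs_serre (zero_compact hD) ρ)

omit [Abelian A] in
lemma occursAt_iff [Abelian A] (hw : HasWeight D ρ) (N : ℤ) (X : Sch k) :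
    InAt D (fun M => ¬ Occurs (zeroData D) ρ M) N X ↔ ¬ OccursAt D ρ N X := by
  constructor
  · rintro h ⟨n, h1⟩
    exact h n ⟨N, h1⟩
  · rintro h n ⟨a, h1⟩
    have h2 := hw N n a X h1
    subst h2
    exact h ⟨n, h1⟩

section

variable (h : IsWeight D) (hg : WGenerated D) [Simple ρ] (hw : HasWeight D ρ)
  (hpt : ∀ N, ¬ OccursAt D ρ N (aff k k))

include h hg hw hpt

/-- A simple object occurs in one weight of smooth projective schemes if and only if it occurs in the
corresponding weight of the hypersurfaces of trilinear forms. -/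
theorem origin_forms (N : ℤ) : (∃ Y : Sch k, SmoothProj Y ∧ OccursAt D ρ N Y) ↔
    ∃ (a b c : ℕ) (T : Fin a → Fin b → Fin c → k), OccursAt D ρ (N + (a - 1)) (hypS T) := by
  have h1 := sp_weight_iff h hg (not_occurs_twSerre h ρ)
    (fun N => (occursAt_iff hw N _).mpr (hpt N)) N
  simp only [occursAt_iff hw] at h1
  rw [← not_iff_not]
  push Not
  exact h1

/-- A simple object occurs in one weight of smooth projective schemes if and only if it occurs in the
corresponding weight of the hypersurfaces of hypergraphs. -/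
theorem origin_graphs (hF : Frac k) (N : ℤ) : (∃ Y : Sch k, SmoothProj Y ∧ OccursAt D ρ N Y) ↔
    ∃ (a b c : ℕ) (H : Finset (Fin a × Fin b × Fin c)),
      OccursAt D ρ (N + (a - 1)) (tripS k H) := by
  have h1 := sp_weight_graph h hg (not_occurs_twSerre h ρ)
    (fun N => (occursAt_iff hw N _).mpr (hpt N)) hF N
  simp only [occursAt_iff hw] at h1
  rw [← not_iff_not]
  push Not
  exact h1

end

end Pool.Agent.Q49.WU
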