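import Pool.Agent.Q49.WU.Main
import Pool.Agent.Q193.LT.Cyc

/-!
# Comparison maps in one weight

For the comparison of two theories `A j X → B j X` with indices `j` of weight `wt j`, the properties the
comparison maps of weight `N` are bijective have the closure properties `WUni`.
-/

set_option autoImplicit false

open CategoryTheory CategoryTheory.Limits AlgebraicGeometry Pool.Agent.Y116.UV Pool.Agent.Z125.UN
  Pool.Agent.Q193.LT

universe w w'

namespace Pool.Agent.Q49.WU

variable {R : Type} [CommRing R] {ι : Type} {E : Type w'} [CommRing E]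

/-- The comparison map is bijective in all degrees `j` of weight `N`. -/
def BijAt (D : PairData.{w} R ι E) (wt : ι → ℤ) (N : ℤ) (X : Sch R) : Prop :=
  ∀ j, wt j = N → Function.Bijective (D.ρ j X).hom

/-- The boundary maps `δ` and the shift `σ` preserve the weight, the Tate twist `τ` raises it by one. -/
structure IsGraded (wt : ι → ℤ) (δ τ σ : ι ≃ ι) : Prop where
  δ : ∀ j, wt (δ j) = wt j
  τ : ∀ j, wt (τ j) = wt j + 1
  σ : ∀ j, wt (σ j) = wt j

variable {D : PairData.{w} R ι E} {wt : ι → ℤ} {δ τ σ : ι ≃ ι} {N : ℤ}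

/-- The theories in weight `N`. -/
def cut (D : PairData.{w} R ι E) (wt : ι → ℤ) (N : ℤ) : PairData.{w} R {j // wt j = N} E where
  A j X := D.A j.1 X
  B j X := D.B j.1 X
  ρ j X := D.ρ j.1 X

lemma cut_iff (X : Sch R) : BijAt D wt N X ↔ BijAll (cut D wt N) X :=
  ⟨fun h j => h j.1 j.2, fun h j hj => h ⟨j, hj⟩⟩

/-- The boundary shift in weight `N`. -/
def cutEquiv (h : ∀ j, wt (δ j) = wt j) (N : ℤ) : {j // wt j = N} ≃ {j // wt j = N} :=
  δ.subtypeEquiv fun j => by rw [h]

lemma cut_les (h : ∀ j, wt (δ j) = wt j) {X Y Z : Sch R} (hl : LesPair D δ X Y Z) :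
    LesPair (cut D wt N) (cutEquiv h N) X Y Z := by
  obtain ⟨m, m', e, e', c⟩ := hl
  exact ⟨⟨fun j => m.f j.1, fun j => m.g j.1, fun j => m.h j.1⟩,
    ⟨fun j => m'.f j.1, fun j => m'.g j.1, fun j => m'.h j.1⟩,
    ⟨fun j => e.fg j.1, fun j => e.gh j.1, fun j => e.hf j.1⟩,
    ⟨fun j => e'.fg j.1, fun j => e'.gh j.1, fun j => e'.hf j.1⟩,
    ⟨fun j => c.f j.1, fun j => c.g j.1, fun j => c.h j.1⟩⟩

lemma IsGraded.pow (hg : IsGraded wt δ τ σ) (n : ℤ) (j : ι) :
    wt (((τ : Equiv.Perm ι) ^ n) j) = wt j + n := by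
  have h1 : ∀ (n : ℕ) (j : ι), wt (((τ : Equiv.Perm ι) ^ n) j) = wt j + n := by
    intro n
    induction n with
    | zero => intro j; simp
    | succ n ih =>
      intro j
      rw [pow_succ, Equiv.Perm.mul_apply, ih, hg.τ]
      push_cast
      ring
  have h2 : ∀ (n : ℕ) (j : ι), wt (((τ : Equiv.Perm ι) ^ n)⁻¹ j) = wt j - n := by
    intro n j
    have h3 := h1 n (((τ : Equiv.Perm ι) ^ n)⁻¹ j)
    rw [← Equiv.Perm.mul_apply, mul_inv_cancel, Equiv.Perm.one_apply] at h3
    omega
  cases n with
  | ofNat n =>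
    have h4 := h1 n j
    rw [Int.ofNat_eq_natCast, zpow_natCast]
    exact h4
  | negSucc n =>
    have h4 := h2 (n + 1) j
    rw [zpow_negSucc, h4, Int.negSucc_eq]
    push_cast
    ring

/-- Closure properties. -/
theorem wuni_pair (hD : IsPair D δ τ σ) (hg : IsGraded wt δ τ σ) (h1 : BijAll D (aff R R)) :
    WUni True (BijAt D wt) := by
  have hbun : ∀ (N : ℤ) (B : Type) [CommRing B] [Algebra R B] [Algebra.FiniteType R B] (m : ℕ)
      (f : Fin m → B) (U : Sch R) (j : U ⟶ aff R B), IsOpenImmersion j.left →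
      Set.range j.left = {x : PrimeSpectrum B | ∃ l, f l ∉ x.asIdeal} →
      (BijAt D wt (N + (m - 1)) (aff R (Jou f)) ↔ BijAt D wt N U) := by
    intro N B _ _ _ m f U j hj hr
    constructor
    · intro h q hq
      obtain ⟨q, rfl⟩ := ((τ : Equiv.Perm ι) ^ (1 - m : ℤ)).surjective q
      refine (hD.bundle B m f U j hj hr q).iff.mp (h q ?_)
      rw [hg.pow] at hq
      omega
    · intro h q hq
      refine (hD.bundle B m f U j hj hr q).iff.mpr (h _ ?_)
      rw [hg.pow]
      omega
  exact
  { iso := fun N X Y hX e h j hj => (hD.iso hX e j).iff.mp (h j hj)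
    total := fun N Z X U i j hX ht hZ hU => by
      rw [cut_iff] at *
      rcases hD.les i j hX ht with h | h
      · exact (cut_les hg.δ h).mid hU hZ
      · exact (cut_les hg.δ h).mid hZ hU
    opened := fun N Z X U i j hX ht hZ hX' => by
      rw [cut_iff] at *
      rcases hD.les i j hX ht with h | h
      · exact (cut_les hg.δ h).left hX' hZ
      · exact (cut_les hg.δ h).right hZ hX'
    closed := fun N Z X U i j hX ht hX' hU => by
      rw [cut_iff] at *
      rcases hD.les i j hX ht with h | h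
      · exact (cut_les hg.δ h).right hU hX'
      · exact (cut_les hg.δ h).left hX' hU
    space := fun N n => by
      have h2 := (hbun (N - n) R (n + 1) (f1 R n) (aff R R) (𝟙 _) inferInstance
        (range_id n)).mpr (fun j _ => h1 j)
      intro q hq
      refine (hD.iso (ft_aff True) ⟨(affIso (jouOne R n)).symm⟩ q).iff.mp (h2 q ?_)
      push_cast
      omega
    jouanolou := fun N B _ _ _ m f U j hj hr => hbun N B m f U j hj hr
    torus := fun N B _ _ _ h q hq => (hD.torus B q).bij (h _ (by rw [hg.σ]; exact hq)) }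

/-- The weight of the index `(n, i)` is `n`. -/
lemma graded_weight : IsGraded (Prod.fst : ℤ × ℤ → ℤ) shiftI shiftN shiftI where
  δ _ := rfl
  τ _ := rfl
  σ _ := rfl

/-- Smooth projective schemes generate, in weight `N`: if the comparison maps of weight
`N` are bijective for all smooth projective schemes, they are bijective for all schemes. (For functors
of weight complexes this follows from the fact that the terms of the weight complex are direct factors
of motives of smooth projective schemes.) -/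
def GenAt {k : Type} [Field k] (C : PairData.{w} k ι E) (wt : ι → ℤ) : Prop :=
  ∀ N : ℤ, (∀ Y : Sch k, SmoothProj Y → BijAt C wt N Y) →
    ∀ X : Sch k, FT True X → BijAt C wt N X

section

variable {k : Type} [Field k] {C : PairData.{w} k ι E} (hw : GenAt C wt) (hC : IsPair C δ τ σ)
  (hg : IsGraded wt δ τ σ) (h1 : BijAll C (aff k k))

include hw hC hg h1

/-- Smooth projective schemes in weight `N`, and trilinear forms. -/
theorem sp_at_iff (N : ℤ) : (∀ Y : Sch k, SmoothProj Y → BijAt C wt N Y) ↔
      ∀ (a b c : ℕ) (T : Fin a → Fin b → Fin c → k), BijAt C wt (N + (a - 1)) (hypS T) := by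
  rw [← all_iff (wuni_pair hC hg h1)]
  exact ⟨fun h => hw N h, fun h Y hY => h Y hY.ft⟩

/-- Over a prime field: smooth projective schemes in weight `N`, and hypergraphs. -/
theorem sp_at_graph (hF : Frac k) (N : ℤ) : (∀ Y : Sch k, SmoothProj Y → BijAt C wt N Y) ↔
      ∀ (a b c : ℕ) (H : Finset (Fin a × Fin b × Fin c)),
        BijAt C wt (N + (a - 1)) (tripS k H) := by
  rw [← graph_iff hF (wuni_pair hC hg h1)]
  exact ⟨fun h => hw N h, fun h Y hY => h Y hY.ft⟩

end

end Pool.Agent.Q49.WU
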