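import Pool.Agent.Q49.WU.Sums

/-!
# Properties of the direct factors with an additional structure, in one weight
-/

set_option autoImplicit false

open CategoryTheory CategoryTheory.Limits AlgebraicGeometry Pool.Agent.Y116.UV Pool.Agent.Z125.UN
  Pool.Agent.Q193.LT

universe v u

namespace Pool.Agent.Q49.WU

section

variable {A : Type u} [Category.{v} A]

/-- `R` is a direct factor of `N`. -/
def IsFactor (R N : A) : Prop := ∃ (i : R ⟶ N) (r : N ⟶ R), i ≫ r = 𝟙 R

lemma IsFactor.trans {R N M : A} (h1 : IsFactor R N) (h2 : IsFactor N M) : IsFactor R M := by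
  obtain ⟨i, r, hir⟩ := h1
  obtain ⟨j, s, hjs⟩ := h2
  refine ⟨i ≫ j, s ≫ r, ?_⟩
  rw [Category.assoc, ← Category.assoc j, hjs, Category.id_comp, hir]

lemma IsFactor.iso {R N M : A} (h1 : IsFactor R N) (e : N ≅ M) : IsFactor R M :=
  h1.trans ⟨e.hom, e.inv, e.hom_inv_id⟩

/-- All admissible direct factors of `N` have the property `Q`. -/
def Adm (adm Q : A → Prop) (N : A) : Prop := ∀ R : A, IsFactor R N → adm R → Q R

/-- Every admissible object `R` has an admissible simple direct factor `R₁`, and `R` has the property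
`Q` if `R₁` has it. -/
def Isotypic [HasZeroMorphisms A] (adm Q : A → Prop) : Prop :=
  ∀ R : A, adm R → ∃ R₁ : A, Simple R₁ ∧ IsFactor R₁ R ∧ adm R₁ ∧ (Q R₁ → Q R)

end

section

variable {A : Type u} [Category.{v} A] [Abelian A]

lemma adm_sum (hss : ∀ {X Y : A} (f : X ⟶ Y), Mono f → ∃ r : Y ⟶ X, f ≫ r = 𝟙 X)
    {adm Q : A → Prop} (hred : Isotypic adm Q) {X Y : A} (hX : Adm adm Q X) (hY : Adm adm Q Y) :
    Adm adm Q (X ⊞ Y) := by
  intro R hR hadm
  obtain ⟨R₁, hs, h1, h2, h3⟩ := hred R hadm
  refine h3 ?_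
  obtain ⟨i, r, hir⟩ := h1.trans hR
  by_cases hf : i ≫ biprod.fst = 0
  · have hg : i ≫ biprod.snd ≠ 0 := by
      intro hg
      have h4 : i = 0 := by
        apply biprod.hom_ext
        · rw [hf, zero_comp]
        · rw [hg, zero_comp]
      rw [h4, zero_comp] at hir
      exact id_nonzero R₁ hir.symm
    have := mono_of_nonzero_from_simple hg
    obtain ⟨s, hs'⟩ := hss (i ≫ biprod.snd) this
    exact hY R₁ ⟨_, s, hs'⟩ h2
  · have := mono_of_nonzero_from_simple hf
    obtain ⟨s, hs'⟩ := hss (i ≫ biprod.fst) this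
    exact hX R₁ ⟨_, s, hs'⟩ h2

end

section

variable {k : Type} [Field k] {A : Type u} [Category.{v} A] [Abelian A]

/-- All admissible direct factors of `D.H N n X (N)`, for all `n`, have the property `Q`. -/
def AdmAt (D : WeightData k A) (adm Q : A → Prop) (N : ℤ) (X : Sch k) : Prop :=
  ∀ n, Adm adm Q ((D.tw N).obj (D.H N n X))

/-- Admissible objects have the weight `w` of the family: an admissible direct factor of a twist
`D.H N n X (a)` exists for `a = N` only. -/
def AdmWeight (D : WeightData k A) (adm : A → Prop) : Prop :=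
  ∀ (N n a : ℤ) (X : Sch k) (R : A), IsFactor R ((D.tw a).obj (D.H N n X)) → adm R → a = N

variable {D : WeightData k A} {adm Q : A → Prop}

lemma admAt_iff (hw : AdmWeight D adm) (N : ℤ) (X : Sch k) :
    InAt D (TwFacts D (Adm adm Q)) N X ↔ AdmAt D adm Q N X := by
  constructor
  · intro h n R hR hadm
    exact h n N R hR.choose hR.choose_spec.choose hR.choose_spec.choose_spec R
      ⟨𝟙 _, 𝟙 _, Category.id_comp _⟩ hadm
  · intro h n a R' i r hir R hR hadm
    have h1 : IsFactor R ((D.tw a).obj (D.H N n X)) := hR.trans ⟨i, r, hir⟩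
    obtain rfl := hw N n a X R h1 hadm
    exact h n R h1 hadm

lemma adm_twSerre (h : IsWMotives D) (hred : Isotypic adm Q) :
    TwSerre D (TwFacts D (Adm adm Q)) := by
  refine twFacts_serre h.weight h.semisimple ?_ ?_ ?_
  · intro X hX R hR hadm
    obtain ⟨R₁, hs, h1, -, -⟩ := hred R hadm
    obtain ⟨i, r, hir⟩ := h1.trans hR
    rw [hX.eq_of_tgt i 0, zero_comp] at hir
    exact absurd hir.symm (id_nonzero R₁)
  · intro X Y e hX R hR hadm
    exact hX R (hR.iso e.symm) hadm
  · intro X Y hX hY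
    exact adm_sum h.semisimple hred hX hY

/-- Admissible direct factors: smooth projective schemes and trilinear forms. -/
theorem adm_forms (h : IsWMotives D) (hw : AdmWeight D adm) (hred : Isotypic adm Q)
    (h1 : ∀ N, AdmAt D adm Q N (aff k k)) (N : ℤ) :
    (∀ Y : Sch k, SmoothProj Y → AdmAt D adm Q N Y) ↔
      ∀ (a b c : ℕ) (T : Fin a → Fin b → Fin c → k), AdmAt D adm Q (N + (a - 1)) (hypS T) := by
  have h2 := sp_weight_iff h.weight h.generated (adm_twSerre h hred)
    (fun N => (admAt_iff hw N _).mpr (h1 N)) N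
  simpa only [admAt_iff hw] using h2

/-- Admissible direct factors: smooth projective schemes and hypergraphs. -/
theorem adm_graphs (h : IsWMotives D) (hw : AdmWeight D adm) (hred : Isotypic adm Q)
    (h1 : ∀ N, AdmAt D adm Q N (aff k k)) (hF : Frac k) (N : ℤ) :
    (∀ Y : Sch k, SmoothProj Y → AdmAt D adm Q N Y) ↔
      ∀ (a b c : ℕ) (H : Finset (Fin a × Fin b × Fin c)),
        AdmAt D adm Q (N + (a - 1)) (tripS k H) := by
  have h2 := sp_weight_graph h.weight h.generated (adm_twSerre h hred)
    (fun N => (admAt_iff hw N _).mpr (h1 N)) hF N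
  simpa only [admAt_iff hw] using h2

end

end Pool.Agent.Q49.WU
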