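import Pool.Agent.Q49.WU.Facts

/-!
# Properties of finite direct sums of motives of one weight
-/

set_option autoImplicit false

open CategoryTheory CategoryTheory.Limits AlgebraicGeometry Pool.Agent.Y116.UV Pool.Agent.Z125.UN
  Pool.Agent.Q193.LT

universe v u

namespace Pool.Agent.Q49.WU

attribute [local instance] Abelian.hasFiniteBiproducts

variable {k : Type} [Field k] {A : Type u} [Category.{v} A] [Abelian A]

/-- The objects `D.H N n (Spec k)` (unit objects and zero), and the objects `D.H 0 n Y` for smooth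
projective `Y`. -/
def OfProjAt (D : WeightData k A) (M : A) : Prop :=
  (∃ N n : ℤ, M = D.H N n (aff k k)) ∨ ∃ (Y : Sch k) (n : ℤ), SmoothProj Y ∧ M = D.H 0 n Y

/-- The objects `D.H N n (Spec k)` (unit objects and zero), and the objects `D.H (a - 1) n X_H` for the
hypersurfaces `X_H` of the tripartite hypergraphs `H` with `a` variables `x_i`. -/
def OfGraphsAt (D : WeightData k A) (M : A) : Prop :=
  (∃ N n : ℤ, M = D.H N n (aff k k)) ∨
    ∃ (a b c : ℕ) (H : Finset (Fin a × Fin b × Fin c)) (n : ℤ), M = D.H (a - 1) n (tripS k H)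

/-- The objects `D.H N n (Spec k)` (unit objects and zero), and the objects `D.H (a - 1) n (T = 1)` for
the trilinear forms `T` with `a` variables `x_i`. -/
def OfFormsAt (D : WeightData k A) (M : A) : Prop :=
  (∃ N n : ℤ, M = D.H N n (aff k k)) ∨
    ∃ (a b c : ℕ) (T : Fin a → Fin b → Fin c → k) (n : ℤ), M = D.H (a - 1) n (hypS T)

/-- The property `P` is true for all finite direct sums `⨁_j M_j(a_j)` of Tate twists of objects `M_j`
with the property `G`. -/
def SumsAt (D : WeightData k A) (G P : A → Prop) : Prop :=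
  ∀ (J : Type) [Finite J] (M : J → A) (a : J → ℤ), (∀ j, G (M j)) →
    P (⨁ fun j => (D.tw (a j)).obj (M j))

section

variable {D : WeightData k A} (h : IsWMotives D) {P : A → Prop}
  (hP : ∀ {X Y : A} (i : X ⟶ Y) (r : Y ⟶ X), i ≫ r = 𝟙 X → P Y → P X)

include h in
lemma gen_twSerre (G : A → Prop) : TwSerre D (FactorOfSum (zeroData D) G) :=
  twSerre_of_zero (gen_serre (zero_compact h.weight) h.semisimple)

include h hP in
lemma sumsAt_of_gen {G G' : A → Prop} (hG : ∀ M, G M → FactorOfSum (zeroData D) G' M)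
    (hs : SumsAt D G' P) : SumsAt D G P :=
  sumsHave_of_gen (D := zeroData D) (zero_compact h.weight) h.semisimple hP hG hs

include h in
lemma self_mem {G : A → Prop} {M : A} (hM : G M) : FactorOfSum (zeroData D) G M :=
  FactorOfSum.self (zero_compact h.weight) hM

include h hP

/-- Finite direct sums for smooth projective varieties and for trilinear forms, in one weight. -/
theorem sumsAt_iff : SumsAt D (OfProjAt D) P ↔ SumsAt D (OfFormsAt D) P := by
  constructor
  · refine sumsAt_of_gen h hP fun M hM => ?_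
    rcases hM with ⟨N, n, rfl⟩ | ⟨a, b, c, T, n, rfl⟩
    · exact self_mem h (Or.inl ⟨N, n, rfl⟩)
    · have h1 := (sp_weight_iff h.weight h.generated (gen_twSerre h (OfProjAt D))
        (fun N n => self_mem h (Or.inl ⟨N, n, rfl⟩)) 0).mp
          (fun Y hY n => self_mem h (Or.inr ⟨Y, n, hY, rfl⟩)) a b c T n
      rwa [zero_add] at h1
  · refine sumsAt_of_gen h hP fun M hM => ?_
    rcases hM with ⟨N, n, rfl⟩ | ⟨Y, n, hY, rfl⟩
    · exact self_mem h (Or.inl ⟨N, n, rfl⟩)
    · refine (sp_weight_iff h.weight h.generated (gen_twSerre h (OfFormsAt D))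
        (fun N n => self_mem h (Or.inl ⟨N, n, rfl⟩)) 0).mpr ?_ Y hY n
      intro a b c T n
      rw [zero_add]
      exact self_mem h (Or.inr ⟨a, b, c, T, n, rfl⟩)

/-- Over a prime field: finite direct sums for smooth projective varieties and for hypergraphs, in one
weight. -/
theorem sumsAt_graph (hF : Frac k) : SumsAt D (OfProjAt D) P ↔ SumsAt D (OfGraphsAt D) P := by
  constructor
  · refine sumsAt_of_gen h hP fun M hM => ?_
    rcases hM with ⟨N, n, rfl⟩ | ⟨a, b, c, H, n, rfl⟩
    · exact self_mem h (Or.inl ⟨N, n, rfl⟩)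
    · have h1 := (sp_weight_graph h.weight h.generated (gen_twSerre h (OfProjAt D))
        (fun N n => self_mem h (Or.inl ⟨N, n, rfl⟩)) hF 0).mp
          (fun Y hY n => self_mem h (Or.inr ⟨Y, n, hY, rfl⟩)) a b c H n
      rwa [zero_add] at h1
  · refine sumsAt_of_gen h hP fun M hM => ?_
    rcases hM with ⟨N, n, rfl⟩ | ⟨Y, n, hY, rfl⟩
    · exact self_mem h (Or.inl ⟨N, n, rfl⟩)
    · refine (sp_weight_graph h.weight h.generated (gen_twSerre h (OfGraphsAt D))
        (fun N n => self_mem h (Or.inl ⟨N, n, rfl⟩)) hF 0).mpr ?_ Y hY n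
      intro a b c H n
      rw [zero_add]
      exact self_mem h (Or.inr ⟨a, b, c, H, n, rfl⟩)

end

end Pool.Agent.Q49.WU
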